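import Pool.Agent.U845.TI.Def
import Pool.Agent.R395.CT.Comp

/-!
# The searches are recursively enumerable
-/

set_option autoImplicit false

namespace Pool.Agent.U845.TI

open Pool.Agent.Helper446 Pool.Agent.W960.GA
open Pool.Agent.R395.CT (ciadd cisub cimul cineg cicast cp_dvd cp_or cp_prime)

section

variable {α : Type} [Primcodable α]

attribute [local fun_prop] ciadd cisub cimul cineg cicast cpow cdiv cmod

@[local fun_prop] theorem cnatAbs {f : α → ℤ} (hf : Computable f) :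
    Computable (fun x => (f x).natAbs) := by
  have h1 : Computable fun x => (f x).toNat :=
    Pool.Agent.Helper566.FD.J7.prim_toNat.to_comp.comp hf
  have h2 : Computable fun x => (-(f x)).toNat :=
    Pool.Agent.Helper566.FD.J7.prim_toNat_neg.to_comp.comp hf
  have h3 : Computable fun x => (f x).toNat + (-(f x)).toNat := by fun_prop
  refine h3.of_eq fun x => ?_
  omega

theorem cp_ilt {f g : α → ℤ} (hf : Computable f) (hg : Computable g) :
    ComputablePred fun a => f a < g a := by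
  have h1 : PrimrecPred fun x : ℤ × ℤ => x.1 < x.2 := Pool.Agent.Helper566.FD.J7.prim_int_lt
  exact RE.cp_comp (p := fun x : ℤ × ℤ => x.1 < x.2) h1.computablePred (hf.pair hg)

@[local fun_prop] theorem csg {f g : α → ℕ} (hf : Computable f) (hg : Computable g) :
    Computable (fun x => sg (f x) (g x)) := by
  unfold sg
  fun_prop

@[local fun_prop] theorem ccst {f g : α → ℤ} (hf : Computable f) (hg : Computable g) :
    Computable (fun x => cst (f x) (g x)) := by
  unfold cst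
  fun_prop

@[local fun_prop] theorem cdbl {f g : α → ℤ} (hf : Computable f) (hg : Computable g) :
    Computable (fun x => dbl (f x) (g x)) := by
  have h : Computable (fun x => 4 * (cst (f x) (g x) * cst (f x) (g x)) *
      cst (-2 * f x) (f x * f x - 4 * g x)) := by fun_prop
  refine h.of_eq fun x => ?_
  unfold dbl
  rw [← sq, ← sq]

@[local fun_prop] theorem ccurve {f g : α → ℤ} (hf : Computable f) (hg : Computable g) :
    Computable (fun x => curve (f x) (g x)) := by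
  unfold curve
  refine Computable.list_cons.comp (Computable.const _) ?_
  refine Computable.list_cons.comp ?_ (Computable.list_cons.comp ?_ (Computable.const _))
  · exact Computable.list_cons.comp (by fun_prop) (Computable.const _)
  · exact Computable.list_cons.comp (by fun_prop) (Computable.const _)

theorem cp_SF {f : α → ℕ} (hf : Computable f) : ComputablePred fun x => SF (f x) := by
  unfold SF
  refine cp_and (cp_not (RE.cp_eq (by fun_prop) (by fun_prop))) ?_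
  refine cp_all_lt (p := fun x k => (1 < k → ¬ k * k ∣ f x)) ?_ (by fun_prop)
  exact cp_imp (RE.cp_lt (by fun_prop) (by fun_prop)) (cp_not (cp_dvd (by fun_prop) (by fun_prop)))

@[local fun_prop] theorem cqf {a b c d e : α → ℤ} (ha : Computable a) (hb : Computable b)
    (hc : Computable c) (hd : Computable d) (he : Computable e) :
    Computable (fun x => qf (a x) (b x) (c x) (d x) (e x)) := by
  unfold qf
  fun_prop

theorem cp_NoMod {A d b : α → ℤ} {p k : α → ℕ} (hA : Computable A) (hd : Computable d)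
    (hb : Computable b) (hp : Computable p) (hk : Computable k) :
    ComputablePred fun x => NoMod (A x) (d x) (b x) (p x) (k x) := by
  unfold NoMod
  refine cp_all_lt (p := fun x N => ∀ M < p x ^ (k x + 1), ∀ e < p x ^ (k x + 1),
    ¬ (p x ∣ M ∧ p x ∣ e) → ¬ p x ^ (k x + 1) ∣ ((N : ℤ) * N - qf (A x) (d x) (b x) M e).natAbs)
    ?_ (by fun_prop)
  refine cp_all_lt (p := fun (x : α × ℕ) M => ∀ e < p x.1 ^ (k x.1 + 1),
    ¬ (p x.1 ∣ M ∧ p x.1 ∣ e) → ¬ p x.1 ^ (k x.1 + 1) ∣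
      ((x.2 : ℤ) * x.2 - qf (A x.1) (d x.1) (b x.1) M e).natAbs)
    ?_ (by fun_prop)
  refine cp_all_lt (p := fun (x : (α × ℕ) × ℕ) e =>
    ¬ (p x.1.1 ∣ x.2 ∧ p x.1.1 ∣ e) → ¬ p x.1.1 ^ (k x.1.1 + 1) ∣
      ((x.1.2 : ℤ) * x.1.2 - qf (A x.1.1) (d x.1.1) (b x.1.1) x.2 e).natAbs)
    ?_ (by fun_prop)
  refine cp_imp (cp_not (cp_and (cp_dvd (by fun_prop) (by fun_prop))
    (cp_dvd (by fun_prop) (by fun_prop)))) (cp_not (cp_dvd (by fun_prop) (by fun_prop)))

theorem cp_NoReal {A d b : α → ℤ} (hA : Computable A) (hd : Computable d)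
    (hb : Computable b) : ComputablePred fun x => NoReal (A x) (d x) (b x) := by
  unfold NoReal
  exact cp_and (cp_ilt (by fun_prop) (by fun_prop)) (cp_and (cp_ilt (by fun_prop) (by fun_prop))
    (cp_or (cp_ilt (by fun_prop) (by fun_prop)) (cp_ilt (by fun_prop) (by fun_prop))))

theorem re_NL {A d b : α → ℤ} (hA : Computable A) (hd : Computable d)
    (hb : Computable b) : REPred fun x => NL (A x) (d x) (b x) := by
  unfold NL
  refine RE.or (RE.of_comput (cp_NoReal hA hd hb)) ?_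
  refine RE.exN (p := fun x (q : ℕ) => ∃ k : ℕ, q.Prime ∧ NoMod (A x) (d x) (b x) q k) ?_
  refine RE.exN (p := fun (x : α × ℕ) k => x.2.Prime ∧ NoMod (A x.1) (d x.1) (b x.1) x.2 k) ?_
  refine RE.of_comput (cp_and (cp_prime (by fun_prop)) (cp_NoMod (by fun_prop) (by fun_prop)
    (by fun_prop) (by fun_prop) (by fun_prop)))

theorem re_imp {p q : α → Prop} (hp : ComputablePred p) (hq : REPred q) :
    REPred fun a => p a → q a := by
  refine (RE.or (RE.of_comput (cp_not hp)) hq).of_eq fun a => ?_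
  tauto

theorem re_Cov {A B : α → ℤ} {T : α → List ℤ} (hA : Computable A) (hB : Computable B)
    (hT : Computable T) : REPred fun x => Cov (A x) (B x) (T x) := by
  unfold Cov
  refine RE.all_lt (p := fun x n => ∀ m < (B x).natAbs + 1, ∀ i < 2, ∀ j < 2,
    (sg i n * sg j m = B x ∧ SF n ∧ ¬ sg i n ∈ T x) → NL (A x) (sg i n) (sg j m)) ?_ (by fun_prop)
  refine RE.all_lt (p := fun (x : α × ℕ) m => ∀ i < 2, ∀ j < 2,
    (sg i x.2 * sg j m = B x.1 ∧ SF x.2 ∧ ¬ sg i x.2 ∈ T x.1) →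
      NL (A x.1) (sg i x.2) (sg j m)) ?_ (by fun_prop)
  refine RE.all_lt (p := fun (x : (α × ℕ) × ℕ) i => ∀ j < 2,
    (sg i x.1.2 * sg j x.2 = B x.1.1 ∧ SF x.1.2 ∧ ¬ sg i x.1.2 ∈ T x.1.1) →
      NL (A x.1.1) (sg i x.1.2) (sg j x.2)) (f := fun _ => 2) ?_ (by fun_prop)
  refine RE.all_lt (p := fun (x : ((α × ℕ) × ℕ) × ℕ) j =>
    (sg x.2 x.1.1.2 * sg j x.1.2 = B x.1.1.1 ∧ SF x.1.1.2 ∧ ¬ sg x.2 x.1.1.2 ∈ T x.1.1.1) →
      NL (A x.1.1.1) (sg x.2 x.1.1.2) (sg j x.1.2)) (f := fun _ => 2) ?_ (by fun_prop)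
  refine re_imp (cp_and (RE.cp_eq (by fun_prop) (by fun_prop)) (cp_and (cp_SF (by fun_prop))
    (cp_not (RE.cp_mem (by fun_prop) (by fun_prop))))) (re_NL (by fun_prop) (by fun_prop)
    (by fun_prop))

theorem re_Cert {A B : α → ℤ} (hA : Computable A) (hB : Computable B) :
    REPred fun x => Cert (A x) (B x) := by
  unfold Cert
  refine RE.ex (p := fun x (T : List ℤ) => ∃ T' : List ℤ, T.length * T'.length ≤ 4 ∧
    Cov (A x) (B x) T ∧ Cov (-2 * A x) (A x * A x - 4 * B x) T') ?_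
  refine RE.ex (p := fun (x : α × List ℤ) (T' : List ℤ) => x.2.length * T'.length ≤ 4 ∧
    Cov (A x.1) (B x.1) x.2 ∧ Cov (-2 * A x.1) (A x.1 * A x.1 - 4 * B x.1) T') ?_
  refine RE.and (RE.le (by fun_prop) (by fun_prop)) (RE.and (re_Cov (by fun_prop) (by fun_prop)
    (by fun_prop)) (re_Cov (by fun_prop) (by fun_prop) (by fun_prop)))

theorem re_PFin : REPred PFin := by
  unfold PFin
  refine RE.ex (p := fun (L : List (List ℤ)) (w : ℤ × ℤ) => L = curve w.1 w.2 ∧ ¬ w.2 = 0 ∧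
    ¬ w.1 * w.1 - 4 * w.2 = 0 ∧ Cert w.1 w.2) ?_
  refine RE.and (RE.eq (by fun_prop) (by fun_prop)) (RE.and (RE.ne (by fun_prop) (by fun_prop))
    (RE.and (RE.ne (by fun_prop) (by fun_prop)) (re_Cert (by fun_prop) (by fun_prop))))

theorem re_PInf : REPred PInf := by
  unfold PInf
  refine RE.ex (p := fun (L : List (List ℤ)) (w : (ℤ × ℤ) × (ℤ × ℤ × ℤ × ℤ) × (ℤ × ℤ)) =>
    L = curve w.1.1 w.1.2 ∧ ¬ w.1.2 = 0 ∧ ¬ w.1.1 * w.1.1 - 4 * w.1.2 = 0 ∧
    0 < w.2.1.2.1 ∧ ¬ w.2.1.2.2.2 = 0 ∧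
    w.2.2.1 * w.2.1.1 + w.2.2.2 * w.2.1.2.1 = 1 ∧
    w.2.1.2.2.1 * w.2.1.2.2.1 * (w.2.1.2.1 * w.2.1.2.1 * w.2.1.2.1) =
      w.2.1.2.2.2 * w.2.1.2.2.2 * (w.2.1.1 * w.2.1.1 * w.2.1.1 +
        w.1.1 * (w.2.1.1 * w.2.1.1) * w.2.1.2.1 + w.1.2 * w.2.1.1 * (w.2.1.2.1 * w.2.1.2.1)) ∧
    dbl w.1.1 w.1.2 < max w.2.1.1.natAbs w.2.1.2.1.natAbs) ?_
  refine RE.and (RE.eq (by fun_prop) (by fun_prop)) (RE.and (RE.ne (by fun_prop) (by fun_prop))
    (RE.and (RE.ne (by fun_prop) (by fun_prop)) (RE.and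
    (RE.of_comput (cp_ilt (by fun_prop) (by fun_prop))) (RE.and (RE.ne (by fun_prop) (by fun_prop))
    (RE.and (RE.eq (by fun_prop) (by fun_prop)) (RE.and (RE.eq (by fun_prop) (by fun_prop))
    (RE.lt (by fun_prop) (by fun_prop))))))))

end

/-- the partial algorithm: it halts if one of the two searches is successful -/
theorem exists_alg : ∃ φ : List (List ℤ) →. Bool, Partrec φ ∧
    (∀ L, (φ L).Dom ↔ PInf L ∨ PFin L) ∧
    ∀ L, ∀ r ∈ φ L, (r = true ∧ PInf L) ∨ (r = false ∧ PFin L) := by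
  have hr : REPred fun x : List (List ℤ) × Bool =>
      (x.2 = true ∧ PInf x.1) ∨ (x.2 = false ∧ PFin x.1) := by
    refine RE.or (RE.and (RE.eq (by fun_prop) (by fun_prop)) (RE.comp re_PInf (by fun_prop)))
      (RE.and (RE.eq (by fun_prop) (by fun_prop)) (RE.comp re_PFin (by fun_prop)))
  obtain ⟨f, hf, h1, h2⟩ := RE.uniformize
    (r := fun (L : List (List ℤ)) (b : Bool) => (b = true ∧ PInf L) ∨ (b = false ∧ PFin L)) hr
  refine ⟨f, hf, fun L => ?_, h2⟩
  rw [h1 L]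
  constructor
  · rintro ⟨b, ⟨-, h⟩ | ⟨-, h⟩⟩
    · exact Or.inl h
    · exact Or.inr h
  · rintro (h | h)
    · exact ⟨true, Or.inl ⟨rfl, h⟩⟩
    · exact ⟨false, Or.inr ⟨rfl, h⟩⟩

end Pool.Agent.U845.TI
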