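import Pool.Agent.U845.TI.Sel
import Pool.Agent.U115.GE.Conv

/-!
# The Selmer groups are minimal if and only if the groups `Ш[2^∞]` are trivial
-/

set_option autoImplicit false
set_option linter.style.haveILetI false

attribute [-instance] DivisionRing.toRatAlgebra

open NumberField IsDedekindDomain

namespace Pool.Agent.U845.TI

open Pool.Agent.U115.GE (Qs ELS SelSet sel loc_of_qs wf_eq)
open Pool.Agent.Y682 (wc)
open Pool.Agent.TH841.NF.D (rk Sha)
open Pool.Agent.Y698.SG (sha_inj loc_map)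
open Pool.Agent.Y698.SG.Cv (WF LocI)
open Pool.Agent.H921R2.TatePole Pool.Agent.H82R3.EK

open scoped Classical

/-- the real condition -/
theorem loc_real (a b d : ℤ) (hb : b ≠ 0) (hab : a ^ 2 - 4 * b ≠ 0) (hd : d ≠ 0)
    (h : Qs ℝ (-2 * a) (a ^ 2 - 4 * b) d) : LocI ℝ a b d := by
  refine loc_of_qs a b d hd h fun h1 => ?_
  by_cases hd0 : 0 < d
  · exact (Pool.Agent.Y971.SG.Lq.t_LQ a b d hb hab hd).2 hd0
  have hdn : (d : ℝ) < 0 := by
    have : d < 0 := by omega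
    exact_mod_cast this
  rcases h1 with ⟨s, hs⟩ | ⟨s, hs⟩
  · nlinarith [mul_self_nonneg s]
  set c : ℝ := (a : ℝ) ^ 2 - 4 * b with hc
  have hc0 : c ≠ 0 := by
    rw [hc]
    exact_mod_cast hab
  have hcn : c < 0 := by
    rcases lt_or_gt_of_ne hc0 with h2 | h2
    · exact h2
    · nlinarith [mul_self_nonneg s, mul_neg_of_neg_of_pos hdn h2]
  set ε : ℝ := -c / ((2 + 2 * |(a : ℝ)|) * (1 - c)) with hε
  have a0 := abs_nonneg (a : ℝ)
  have hden : 0 < (2 + 2 * |(a : ℝ)|) * (1 - c) := by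
    apply mul_pos <;> linarith
  have hε0 : 0 < ε := div_pos (by linarith) hden
  have hε1 : ε * (2 + 2 * |(a : ℝ)|) * (1 - c) = -c := by
    rw [mul_assoc, hε, div_mul_cancel₀ _ hden.ne']
  have hε2 : ε * (2 + 2 * |(a : ℝ)|) < -c ∧ ε < 1 := by
    have h3 : 0 < ε * (2 + 2 * |(a : ℝ)|) := mul_pos hε0 (by linarith)
    constructor
    · nlinarith
    · by_contra hcon
      have h4 : 1 ≤ ε := not_lt.1 hcon
      nlinarith [mul_nonneg hε0.le a0, mul_pos h3 (neg_pos.2 hcn)]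
  have hX : -ε < 0 := by linarith
  have hq : (-ε) ^ 2 - 2 * a * (-ε) + c < 0 := by
    have h5 : 2 * (a : ℝ) * ε ≤ 2 * |(a : ℝ)| * ε := by
      have := le_abs_self (a : ℝ)
      nlinarith
    nlinarith [hε2.1, hε2.2]
  refine ⟨-ε, Real.sqrt ((-ε) ^ 3 - 2 * a * (-ε) ^ 2 + c * (-ε)), Real.sqrt (-ε / d), hX.ne, ?_, ?_⟩
  · rw [Real.sq_sqrt]
    nlinarith [mul_pos_of_neg_of_neg hX hq]
  · rw [Real.sq_sqrt (div_nonneg_of_nonpos hX.le hdn.le)]
    field_simp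

/-- **the converse bound** -/
theorem cnv {a b : ℤ} (hb : b ≠ 0) (hab : a ^ 2 - 4 * b ≠ 0) (nb : ¬ IsSquare (b : ℚ))
    (nab : ¬ IsSquare ((a : ℚ) ^ 2 - 4 * b)) (hfin : Finite (wc (a : ℚ) (b : ℚ)).toAffine.Point)
    (T : Finset ℤ) (hT : ∀ d ∈ T, d ≠ 0 ∧ ELS (-2 * a) (a ^ 2 - 4 * b) d)
    (hne : ∀ d ∈ T, ∀ e ∈ T, d ≠ e → ¬ IsSquare ((d * e : ℤ) : ℚ) ∧
      ¬ IsSquare (((d * e : ℤ) : ℚ) * ((a : ℚ) ^ 2 - 4 * b)))
    (hf : Finite {x : Sha (wc (a : ℚ) (b : ℚ)) // 2 • x = 0}) :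
    T.card ≤ Nat.card {x : Sha (wc (a : ℚ) (b : ℚ)) // 2 • x = 0} := by
  have hq : ∀ d ∈ T, ∀ (p : ℕ) [Fact p.Prime], LocI ℚ_[p] a b d := fun d hd p hp =>
    loc_of_qs a b d (hT d hd).1 ((hT d hd).2.2 p) fun h2 =>
      Pool.Agent.Y587.SG.lq a b d hab (hT d hd).1 p h2
  have key := sha_inj ℚ hb hab nb nab (by rw [wf_eq]; exact hfin)
    (ι := {d : ℤ // d ∈ T}) (fun d => d.1) (fun d => (hT d.1 d.2).1)
    (fun d v => by
      have : Fact (below v : ℕ).Prime := ⟨(below v).2⟩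
      exact loc_map (Pool.Agent.Y698.SG.Th.pth (v := v) (p := (below v : ℕ)) (nm_eq v).2.2)
        (hq d.1 d.2 _))
    (fun d => loc_real a b d.1 hb hab (hT d.1 d.2).1 (hT d.1 d.2).2.1)
    (fun x y hxy => hne x.1 x.2 y.1 y.2 fun h => hxy (Subtype.ext h))
  rw [wf_eq] at key
  obtain ⟨f, hfi, hf2⟩ := key
  let g : {d : ℤ // d ∈ T} → {x : Sha (wc (a : ℚ) (b : ℚ)) // 2 • x = 0} :=
    fun J => ⟨f J, by rw [two_nsmul]; exact hf2 J⟩
  have hg : Function.Injective g := fun x y h => hfi (congrArg Subtype.val h)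
  have h1 := Nat.card_le_card_of_injective g hg
  rwa [Nat.card_eq_fintype_card, Fintype.card_coe] at h1

/-- squarefree integers whose product is a square are equal -/
theorem sqf_eq {d e : ℤ} (hd : Squarefree d) (he : Squarefree e) (h : IsSquare (d * e)) :
    d = e := by
  obtain ⟨m, hm⟩ := h
  have h1 : d ∣ m := by
    have h2 : d ∣ m ^ 2 := ⟨e, by rw [hm]; ring⟩
    exact (hd.dvd_pow_iff_dvd two_ne_zero).1 h2
  obtain ⟨k, rfl⟩ := h1
  have h3 : e = d * (k * k) := by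
    have h4 : d * e = d * (d * (k * k)) := by rw [hm]; ring
    exact mul_left_cancel₀ hd.ne_zero h4
  have h5 : IsUnit k := he k ⟨d, by rw [h3]; ring⟩
  rcases Int.isUnit_iff.1 h5 with rfl | rfl
  · rw [h3]
    ring
  · rw [h3]
    ring

theorem isq {n : ℤ} : IsSquare (n : ℚ) ↔ IsSquare n := by
  constructor
  · intro h
    exact_mod_cast (Rat.isSquare_intCast_iff.1 h)
  · rintro ⟨m, rfl⟩
    exact ⟨m, by push_cast; ring⟩

/-- the Selmer group of the dual isogeny is minimal if `Ш` has no elements of order two -/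
theorem sel_two {a b : ℤ} (hb : b ≠ 0) (hab : a ^ 2 - 4 * b ≠ 0) (nb : ¬ IsSquare b)
    (nab : ¬ IsSquare (a ^ 2 - 4 * b)) (hfin : Finite (wc (a : ℚ) (b : ℚ)).toAffine.Point)
    (h2 : ∀ x : Sha (wc (a : ℚ) (b : ℚ)), 2 • x = 0 → x = 0) :
    sel (-2 * a) (a ^ 2 - 4 * b) ≤ 2 := by
  have nb' : ¬ IsSquare (b : ℚ) := fun h => nb (isq.1 h)
  have nab' : ¬ IsSquare ((a : ℚ) ^ 2 - 4 * b) := by
    intro h
    apply nab
    apply isq.1
    push_cast
    exact h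
  obtain ⟨h1, -⟩ := Pool.Agent.U796.GE.t_BND a b hb hab
  have hcard : Nat.card {x : Sha (wc (a : ℚ) (b : ℚ)) // 2 • x = 0} = 1 := by
    rw [Nat.card_eq_one_iff_unique]
    exact ⟨⟨fun x y => Subtype.ext (by rw [h2 _ x.2, h2 _ y.2])⟩, ⟨⟨0, smul_zero 2⟩⟩⟩
  -- the elements different from one
  have key : ∀ d ∈ SelSet (-2 * a) (a ^ 2 - 4 * b), d ≠ 1 → IsSquare (d * (a ^ 2 - 4 * b)) := by
    intro d hd hd1
    by_contra hcon
    have h3 : ¬ IsSquare d := by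
      intro h4
      apply hd1
      exact sqf_eq hd.1 squarefree_one (by rw [mul_one]; exact h4)
    have h5 := cnv hb hab nb' nab' hfin {1, d} (by
      intro e he
      rw [Finset.mem_insert, Finset.mem_singleton] at he
      rcases he with rfl | rfl
      · refine ⟨one_ne_zero, ?_, fun p hp => ?_⟩
        · exact Pool.Agent.U115.GE.qs_sq ⟨1, by norm_num⟩
        · exact Pool.Agent.U115.GE.qs_sq ⟨1, by norm_num⟩
      · exact ⟨hd.1.ne_zero, hd.2⟩) (by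
      intro e he f hf hef
      rw [Finset.mem_insert, Finset.mem_singleton] at he hf
      have h6 : e * f = d := by
        rcases he with rfl | rfl <;> rcases hf with rfl | rfl
        · exact absurd rfl hef
        · ring
        · ring
        · exact absurd rfl hef
      rw [h6]
      refine ⟨fun h7 => h3 (isq.1 h7), fun h7 => hcon (isq.1 ?_)⟩
      push_cast
      exact h7) h1
    rw [hcard, Finset.card_pair (Ne.symm hd1)] at h5
    omega
  unfold sel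
  by_contra hcon
  have hcon : 2 < (SelSet (-2 * a) (a ^ 2 - 4 * b)).ncard := not_le.1 hcon
  obtain ⟨x, y, z, hx, hy, hz, hxy, hxz, hyz⟩ := (Set.two_lt_ncard_iff
    (Set.finite_of_ncard_ne_zero (by omega))).1 hcon
  have hpair : ∀ d ∈ SelSet (-2 * a) (a ^ 2 - 4 * b), ∀ e ∈ SelSet (-2 * a) (a ^ 2 - 4 * b),
      d ≠ 1 → e ≠ 1 → d = e := by
    intro d hd e he hd1 he1
    obtain ⟨s, hs⟩ := key d hd hd1
    obtain ⟨t, ht⟩ := key e he he1
    apply sqf_eq hd.1 he.1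
    apply isq.1
    have hc : ((a ^ 2 - 4 * b : ℤ) : ℚ) ≠ 0 := by exact_mod_cast hab
    refine ⟨(s : ℚ) * t / ((a ^ 2 - 4 * b : ℤ) : ℚ), ?_⟩
    have hs' : (d : ℚ) * ((a ^ 2 - 4 * b : ℤ) : ℚ) = s * s := by exact_mod_cast hs
    have ht' : (e : ℚ) * ((a ^ 2 - 4 * b : ℤ) : ℚ) = t * t := by exact_mod_cast ht
    generalize ((a ^ 2 - 4 * b : ℤ) : ℚ) = c at hc hs' ht' ⊢
    push_cast
    rw [div_mul_div_comm, eq_div_iff (mul_ne_zero hc hc)]
    linear_combination (e : ℚ) * c * hs' + (s : ℚ) * s * ht'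
  by_cases hx1 : x = 1
  · refine hyz (hpair y hy z hz ?_ ?_)
    · rintro rfl
      exact hxy hx1
    · rintro rfl
      exact hxz hx1
  · by_cases hy1 : y = 1
    · refine hxz (hpair x hx z hz hx1 ?_)
      rintro rfl
      exact hyz hy1
    · exact hxy (hpair x hx y hy hx1 hy1)

/-- scaling -/
theorem qs_scale4 {K : Type} [Field K] [CharZero K] (a b d : ℤ) :
    Qs K (4 * a) (16 * b) d ↔ Qs K a b d := by
  unfold Qs
  constructor
  · rintro ⟨N, M, e, h1, h2⟩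
    refine ⟨N, M, 2 * e, ?_, ?_⟩
    · rcases h1 with h1 | h1
      · exact Or.inl h1
      · exact Or.inr (mul_ne_zero two_ne_zero h1)
    · rw [h2]
      push_cast
      ring
  · rintro ⟨N, M, e, h1, h2⟩
    refine ⟨N, M, e / 2, ?_, ?_⟩
    · rcases h1 with h1 | h1
      · exact Or.inl h1
      · exact Or.inr (div_ne_zero h1 two_ne_zero)
    · rw [h2]
      push_cast
      ring

theorem sel_dual (a b : ℤ) :
    sel (-2 * (-2 * a)) ((-2 * a) ^ 2 - 4 * (a ^ 2 - 4 * b)) = sel a b := by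
  have e1 : -2 * (-2 * a) = 4 * a := by ring
  have e2 : (-2 * a) ^ 2 - 4 * (a ^ 2 - 4 * b) = 16 * b := by ring
  rw [e1, e2]
  unfold sel SelSet ELS
  simp only [qs_scale4]

/-- `E(ℚ)` is finite and `Ш(E/ℚ)[2^∞] = 0` -/
def Tr (W : WeierstrassCurve ℚ) : Prop :=
  Finite W.toAffine.Point ∧ ∀ (n : ℕ) (x : Sha W), 2 ^ n • x = 0 → x = 0

theorem tr_of {a b : ℤ} (hb : b ≠ 0) (hab : a ^ 2 - 4 * b ≠ 0)
    (h : sel a b * sel (-2 * a) (a ^ 2 - 4 * b) = 4) : Tr (wc (a : ℚ) (b : ℚ)) := by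
  obtain ⟨h1, h2⟩ := fin_of hb hab h
  refine ⟨h1, ?_⟩
  have h3 := (Nat.card_eq_one_iff_unique.1 h2).1
  have h4 : ∀ x : Sha (wc (a : ℚ) (b : ℚ)), 2 • x = 0 → x = 0 := fun x hx =>
    congrArg Subtype.val (h3.elim ⟨x, hx⟩ ⟨0, smul_zero 2⟩)
  intro n
  induction n with
  | zero =>
    intro x hx
    rwa [pow_zero, one_smul] at hx
  | succ n ih =>
    intro x hx
    apply ih
    apply h4
    rw [smul_smul, ← pow_succ']
    exact hx

/-- **the criterion** -/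
theorem tr_iff {a b : ℤ} (nb : ¬ IsSquare b) (nab : ¬ IsSquare (a ^ 2 - 4 * b)) :
    sel a b * sel (-2 * a) (a ^ 2 - 4 * b) = 4 ↔
      Tr (wc (a : ℚ) (b : ℚ)) ∧ Tr (wc ((-2 * a : ℤ) : ℚ) ((a ^ 2 - 4 * b : ℤ) : ℚ)) := by
  have hb : b ≠ 0 := by
    rintro rfl
    exact nb ⟨0, by norm_num⟩
  have hab : a ^ 2 - 4 * b ≠ 0 := by
    intro h
    exact nab ⟨0, by rw [h]; norm_num⟩
  have e2 : (-2 * a) ^ 2 - 4 * (a ^ 2 - 4 * b) = 16 * b := by ring
  have h16 : (-2 * a) ^ 2 - 4 * (a ^ 2 - 4 * b) ≠ 0 := by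
    rw [e2]
    exact mul_ne_zero (by norm_num) hb
  have n16 : ¬ IsSquare ((-2 * a) ^ 2 - 4 * (a ^ 2 - 4 * b)) := by
    rw [e2]
    rintro ⟨s, hs⟩
    apply nb
    apply isq.1
    refine ⟨(s : ℚ) / 4, ?_⟩
    have hs' : (16 : ℚ) * b = s * s := by exact_mod_cast hs
    linarith
  constructor
  · intro h
    refine ⟨tr_of hb hab h, tr_of hab h16 ?_⟩
    rw [sel_dual, mul_comm]
    exact h
  · rintro ⟨h1, h2⟩
    have k1 := sel_two hb hab nb nab h1.1 fun x hx => h1.2 1 x (by rw [pow_one]; exact hx)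
    have k2 := sel_two hab h16 nab n16 h2.1 fun x hx => h2.2 1 x (by rw [pow_one]; exact hx)
    rw [sel_dual] at k2
    have k3 := four_le hb hab
    have k4 := Nat.mul_le_mul k2 k1
    omega

end Pool.Agent.U845.TI
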