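import Pool.Agent.U845.TI.Def
import Pool.Agent.U115.GE.Sel
import Pool.Agent.U796.GE.BND
import Pool.Agent.U115.XP.Fin

/-!
# Certificates of finiteness
-/

set_option autoImplicit false

namespace Pool.Agent.U845.TI

open Pool.Agent.U115.GE (Qs ELS SelSet sel sel_dvd)
open Pool.Agent.Y682 (wc)
open Pool.Agent.TH841.NF.D (Sha rk)

theorem sf_iff {n : ℕ} : SF n ↔ Squarefree n := by
  constructor
  · rintro ⟨h1, h2⟩ x hx
    rw [Nat.isUnit_iff]
    have h3 : x ≠ 0 := by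
      rintro rfl
      rw [mul_zero] at hx
      exact h1 (Nat.eq_zero_of_zero_dvd hx)
    have h4 := Nat.le_of_dvd (Nat.pos_of_ne_zero h1) hx
    have h5 : x ≤ x * x := Nat.le_mul_self x
    by_contra h6
    exact h2 x (by omega) (by omega) hx
  · intro h
    refine ⟨h.ne_zero, fun k _ hk hd => ?_⟩
    have := Nat.isUnit_iff.1 (h k hd)
    omega

theorem exists_sg (d : ℤ) : ∃ i < 2, sg i d.natAbs = d := by
  unfold sg
  rcases Int.natAbs_eq d with h | h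
  · refine ⟨0, by norm_num, ?_⟩
    rw [Nat.cast_zero]
    linarith
  · refine ⟨1, by norm_num, ?_⟩
    rw [Nat.cast_one]
    linarith

theorem sg_abs {i n : ℕ} (hi : i < 2) : (sg i n).natAbs = n := by
  unfold sg
  rcases (by omega : i = 0 ∨ i = 1) with rfl | rfl
  · push_cast
    omega
  · push_cast
    omega

theorem sel_dvd' {A B d : ℤ} (h : d ∈ SelSet A B) : d ∣ B := by
  have hd := h.1
  have h1 : Squarefree d.natAbs := Int.squarefree_natAbs.2 hd
  rw [← Int.natAbs_dvd_natAbs, ← Nat.prod_primeFactors_of_squarefree h1]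
  refine Finset.prod_primes_dvd _ (fun q hq => (Nat.prime_of_mem_primeFactors hq).prime)
    fun q hq => ?_
  have h2 : (q : ℤ) ∣ d := Int.natCast_dvd.2 (Nat.dvd_of_mem_primeFactors hq)
  exact Int.natCast_dvd.1 (sel_dvd h (Nat.prime_of_mem_primeFactors hq) h2)

theorem cov_iff {A B : ℤ} (hB : B ≠ 0) {T : List ℤ} : Cov A B T ↔ ∀ d ∈ SelSet A B, d ∈ T := by
  constructor
  · intro h d hd
    by_contra hT
    obtain ⟨b, hb⟩ := sel_dvd' hd
    have hd0 : d ≠ 0 := hd.1.ne_zero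
    have hb0 : b ≠ 0 := by
      rintro rfl
      exact hB (by rw [hb, mul_zero])
    obtain ⟨i, hi, hi'⟩ := exists_sg d
    obtain ⟨j, hj, hj'⟩ := exists_sg b
    have hn : d.natAbs < B.natAbs + 1 := by
      have := Nat.le_of_dvd (Int.natAbs_pos.2 hB) (Int.natAbs_dvd_natAbs.2 ⟨b, hb⟩)
      omega
    have hm : b.natAbs < B.natAbs + 1 := by
      have := Nat.le_of_dvd (Int.natAbs_pos.2 hB) (Int.natAbs_dvd_natAbs.2 ⟨d, by rw [hb, mul_comm]⟩)
      omega
    have key := h d.natAbs hn b.natAbs hm i hi j hj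
    rw [hi', hj'] at key
    have h1 := key ⟨hb.symm, sf_iff.2 (Int.squarefree_natAbs.2 hd.1), hT⟩
    rw [nl_iff hd0 hb0, ← hb] at h1
    exact h1 hd.2
  · rintro h n - m - i hi j hj ⟨h1, h2, h3⟩
    have hd0 : sg i n ≠ 0 := by
      intro h0
      rw [h0, zero_mul] at h1
      exact hB h1.symm
    have hb0 : sg j m ≠ 0 := by
      intro h0
      rw [h0, mul_zero] at h1
      exact hB h1.symm
    rw [nl_iff hd0 hb0, h1]
    intro h4
    refine h3 (h _ ⟨?_, h4⟩)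
    rw [← Int.squarefree_natAbs, sg_abs hi]
    exact sf_iff.1 h2

theorem sel_le {A B : ℤ} (hB : B ≠ 0) {T : List ℤ} (h : Cov A B T) : sel A B ≤ T.length := by
  classical
  have h1 : SelSet A B ⊆ (T.toFinset : Set ℤ) := by
    intro d hd
    rw [List.coe_toFinset]
    exact (cov_iff hB).1 h d hd
  have h2 := Set.ncard_le_ncard h1 (Finset.finite_toSet _)
  rw [Set.ncard_coe_finset] at h2
  exact h2.trans (List.toFinset_card_le T)

theorem exists_cov {A B : ℤ} (hB : B ≠ 0) (h : sel A B ≠ 0) :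
    ∃ T : List ℤ, T.length = sel A B ∧ Cov A B T := by
  have hf : (SelSet A B).Finite := Set.finite_of_ncard_ne_zero h
  refine ⟨hf.toFinset.toList, ?_, (cov_iff hB).2 fun d hd => ?_⟩
  · rw [Finset.length_toList]
    exact (Set.ncard_eq_toFinset_card _ hf).symm
  · rw [Finset.mem_toList, Set.Finite.mem_toFinset]
    exact hd

theorem four_le {A B : ℤ} (hB : B ≠ 0) (hC : A ^ 2 - 4 * B ≠ 0) :
    4 ≤ sel A B * sel (-2 * A) (A ^ 2 - 4 * B) := by
  obtain ⟨h1, h2⟩ := Pool.Agent.U796.GE.t_BND A B hB hC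
  refine le_trans ?_ h2
  have h3 : 0 < Nat.card {x : Sha (wc (A : ℚ) (B : ℚ)) // 2 • x = 0} :=
    Nat.card_pos_iff.2 ⟨⟨⟨0, smul_zero _⟩⟩, h1⟩
  have h4 : 0 < 2 ^ rk (wc (A : ℚ) (B : ℚ)) := by positivity
  nlinarith [Nat.mul_pos h4 h3]

theorem cert_iff {A B : ℤ} (hB : B ≠ 0) (hC : A ^ 2 - 4 * B ≠ 0) :
    Cert A B ↔ sel A B * sel (-2 * A) (A ^ 2 - 4 * B) = 4 := by
  have e : A * A - 4 * B = A ^ 2 - 4 * B := by ring
  have h4 := four_le hB hC
  unfold Cert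
  rw [e]
  constructor
  · rintro ⟨T, T', h1, h2, h3⟩
    have h5 := sel_le hB h2
    have h6 := sel_le hC h3
    have h7 := Nat.mul_le_mul h5 h6
    omega
  · intro h
    have h5 : sel A B ≠ 0 := by
      intro h0
      rw [h0] at h
      omega
    have h6 : sel (-2 * A) (A ^ 2 - 4 * B) ≠ 0 := by
      intro h0
      rw [h0] at h
      omega
    obtain ⟨T, hT, h7⟩ := exists_cov hB h5
    obtain ⟨T', hT', h8⟩ := exists_cov hC h6
    exact ⟨T, T', by rw [hT, hT', h], h7, h8⟩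

/-- finitely many points -/
theorem fin_of {A B : ℤ} (hB : B ≠ 0) (hC : A ^ 2 - 4 * B ≠ 0)
    (h : sel A B * sel (-2 * A) (A ^ 2 - 4 * B) = 4) :
    Finite (wc (A : ℚ) (B : ℚ)).toAffine.Point ∧
      Nat.card {x : Sha (wc (A : ℚ) (B : ℚ)) // 2 • x = 0} = 1 := by
  obtain ⟨h1, h2⟩ := Pool.Agent.U796.GE.t_BND A B hB hC
  have h3 : 0 < Nat.card {x : Sha (wc (A : ℚ) (B : ℚ)) // 2 • x = 0} :=
    Nat.card_pos_iff.2 ⟨⟨⟨0, smul_zero _⟩⟩, h1⟩
  have h4 : 0 < 2 ^ rk (wc (A : ℚ) (B : ℚ)) := by positivity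
  rw [h] at h2
  have h5 : 2 ^ rk (wc (A : ℚ) (B : ℚ)) * Nat.card {x : Sha (wc (A : ℚ) (B : ℚ)) // 2 • x = 0} ≤ 1 := by
    nlinarith
  have h6 : 2 ^ rk (wc (A : ℚ) (B : ℚ)) ≤ 1 := by nlinarith
  have h7 : rk (wc (A : ℚ) (B : ℚ)) = 0 := by
    by_contra hcon
    have := Nat.one_lt_two_pow hcon
    omega
  have hBq : (B : ℚ) ≠ 0 := by exact_mod_cast hB
  have hCq : (A : ℚ) ^ 2 - 4 * (B : ℚ) ≠ 0 := by exact_mod_cast hC
  refine ⟨(Pool.Agent.U115.XP.fin_wc ℚ _ _ hBq hCq).1 h7, ?_⟩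
  rw [h7, pow_zero, one_mul] at h5
  omega

theorem sol_fin {A B : ℤ} (hB : B ≠ 0) (hC : A ^ 2 - 4 * B ≠ 0)
    (h : Finite (wc (A : ℚ) (B : ℚ)).toAffine.Point) : (Sol A B).Finite := by
  have hBq : (B : ℚ) ≠ 0 := by exact_mod_cast hB
  have hCq : (A : ℚ) ^ 2 - 4 * (B : ℚ) ≠ 0 := by exact_mod_cast hC
  have hΔ : (wc (A : ℚ) (B : ℚ)).Δ ≠ 0 := by
    have h1 : (wc (A : ℚ) (B : ℚ)).Δ = 16 * ((B : ℚ) ^ 2 * ((A : ℚ) ^ 2 - 4 * B)) := by
      unfold wc WeierstrassCurve.Δ WeierstrassCurve.b₂ WeierstrassCurve.b₄ WeierstrassCurve.b₆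
        WeierstrassCurve.b₈
      ring
    rw [h1]
    positivity
  have heq : ∀ p ∈ Sol A B, (wc (A : ℚ) (B : ℚ)).toAffine.Nonsingular p.1 p.2 := by
    intro p hp
    have hp : p.2 ^ 2 = p.1 ^ 3 + A * p.1 ^ 2 + B * p.1 := hp
    refine (WeierstrassCurve.Affine.equation_iff_nonsingular_of_Δ_ne_zero hΔ).1 ?_
    rw [WeierstrassCurve.Affine.equation_iff]
    unfold wc
    simp only
    linear_combination hp
  have hinj : Function.Injective (fun p : Sol A B =>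
      (WeierstrassCurve.Affine.Point.some _ _ (heq p.1 p.2) : (wc (A : ℚ) (B : ℚ)).toAffine.Point)) := by
    intro p q hpq
    simp only [WeierstrassCurve.Affine.Point.some.injEq] at hpq
    exact Subtype.ext (Prod.ext hpq.1 hpq.2)
  have := Finite.of_injective _ hinj
  exact Set.toFinite _

end Pool.Agent.U845.TI
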