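import Mathlib

/-!
# Points of large height on `y² = x³ + A x² + B x` generate infinitely many points

The doubling map is the composition of two isogenies of degree two; the height of the abscissa is
multiplied by four, up to an explicit constant.
-/

set_option autoImplicit false

namespace Pool.Agent.U845.TI

/-- the height of a rational number -/
def ht (x : ℚ) : ℕ := max x.num.natAbs x.den

/-- the affine rational points of `y² = x³ + A x² + B x` -/
def Sol (A B : ℤ) : Set (ℚ × ℚ) := {p | p.2 ^ 2 = p.1 ^ 3 + A * p.1 ^ 2 + B * p.1}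

theorem ht_pos (x : ℚ) : 0 < ht x := lt_of_lt_of_le x.den_pos (le_max_right _ _)

theorem ht_zero : ht 0 = 1 := rfl

theorem ht_div_le (a b : ℤ) (hb : b ≠ 0) : ht ((a : ℚ) / b) ≤ max a.natAbs b.natAbs := by
  have h1 : ((a : ℚ) / b).num ∣ a := by
    rw [← Rat.divInt_eq_div]
    exact Rat.num_dvd a hb
  have h2 : (((a : ℚ) / b).den : ℤ) ∣ b := by
    rw [← Rat.divInt_eq_div]
    exact Rat.den_dvd a b
  unfold ht
  apply max_le
  · by_cases ha : a = 0
    · subst ha
      simp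
    · refine le_trans ?_ (le_max_left _ _)
      exact Nat.le_of_dvd (Int.natAbs_pos.2 ha) (Int.natAbs_dvd_natAbs.2 h1)
  · refine le_trans ?_ (le_max_right _ _)
    have h3 := Nat.le_of_dvd (Int.natAbs_pos.2 hb) (Int.natAbs_dvd_natAbs.2 h2)
    simpa using h3

theorem ht_four (z : ℚ) : ht (4 * z) ≤ 4 * ht z := by
  have h1 : 4 * z = ((4 * z.num : ℤ) : ℚ) / ((z.den : ℤ) : ℚ) := by
    have h2 : z = (z.num : ℚ) / (z.den : ℚ) := (Rat.num_div_den z).symm
    push_cast
    rw [mul_div_assoc, ← h2]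
  rw [h1]
  refine (ht_div_le _ _ (by exact_mod_cast z.den_nz)).trans ?_
  unfold ht
  rw [Int.natAbs_mul, Int.natAbs_natCast]
  have : (4 : ℤ).natAbs = 4 := rfl
  rw [this]
  omega

/-- the isogeny of degree two -/
theorem isog {A B : ℤ} {x y : ℚ} (h : (x, y) ∈ Sol A B) (hx : x ≠ 0) :
    (y ^ 2 / x ^ 2, y * (x ^ 2 - B) / x ^ 2) ∈ Sol (-2 * A) (A ^ 2 - 4 * B) := by
  have h : y ^ 2 = x ^ 3 + A * x ^ 2 + B * x := h
  show (y * (x ^ 2 - B) / x ^ 2) ^ 2 = (y ^ 2 / x ^ 2) ^ 3 + ((-2 * A : ℤ) : ℚ) * (y ^ 2 / x ^ 2) ^ 2 +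
    ((A ^ 2 - 4 * B : ℤ) : ℚ) * (y ^ 2 / x ^ 2)
  push_cast
  field_simp
  linear_combination (-y ^ 2 * ((x ^ 3 + B * x) + (y ^ 2 - A * x ^ 2))) * h

/-- the constant of the isogeny -/
def cst (A B : ℤ) : ℕ := (1 + A.natAbs + B.natAbs) * B.natAbs

theorem isog_ht {A B : ℤ} (hB : B ≠ 0) {x : ℚ} (hx : x ≠ 0) :
    ht x ^ 2 ≤ cst A B * ht ((x ^ 2 + A * x + B) / x) := by
  set x' := (x ^ 2 + A * x + B) / x with hx'
  set u : ℤ := x.num with hu
  set v : ℤ := (x.den : ℤ) with hv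
  have hu0 : u ≠ 0 := Rat.num_ne_zero.2 hx
  have hv0 : v ≠ 0 := by
    rw [hv]
    exact_mod_cast x.den_nz
  have hxuv : x = (u : ℚ) / v := by
    rw [hu, hv]
    exact_mod_cast (Rat.num_div_den x).symm
  have hcop : IsCoprime u v := by
    rw [Int.isCoprime_iff_nat_coprime, hv, Int.natAbs_natCast]
    exact x.reduced
  set F : ℤ := u ^ 2 + A * u * v + B * v ^ 2 with hF
  set n : ℤ := x'.num with hn
  set m : ℤ := (x'.den : ℤ) with hm
  have hm0 : m ≠ 0 := by
    rw [hm]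
    exact_mod_cast x'.den_nz
  have hx'nm : x' = (n : ℚ) / m := by
    rw [hn, hm]
    exact_mod_cast (Rat.num_div_den x').symm
  have hcop' : IsCoprime n m := by
    rw [Int.isCoprime_iff_nat_coprime, hm, Int.natAbs_natCast]
    exact x'.reduced
  have huq : (u : ℚ) ≠ 0 := by exact_mod_cast hu0
  have hvq : (v : ℚ) ≠ 0 := by exact_mod_cast hv0
  have hmq : (m : ℚ) ≠ 0 := by exact_mod_cast hm0
  have key : n * (u * v) = m * F := by
    have h1 : x' * ((u : ℚ) * v) = F := by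
      rw [hx', hxuv, hF]
      push_cast
      field_simp
    rw [hx'nm] at h1
    have h2 : (n : ℚ) * (u * v) = m * F := by
      rw [← h1]
      field_simp
    exact_mod_cast h2
  obtain ⟨g, hg⟩ : m ∣ u * v := hcop'.symm.dvd_of_dvd_mul_left (Dvd.intro _ key.symm)
  have hFg : F = n * g := by
    have h1 : m * F = m * (n * g) := by
      rw [← key, hg]
      ring
    exact mul_left_cancel₀ hm0 h1
  have hgv : IsCoprime g v := by
    have h1 : IsCoprime F v := by
      have h2 : IsCoprime (u ^ 2) v := hcop.pow_left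
      have h3 : F = u ^ 2 + v * (A * u + B * v) := by rw [hF]; ring
      rw [h3]
      exact IsCoprime.add_mul_left_left h2 _
    exact IsCoprime.of_isCoprime_of_dvd_left h1 ⟨n, by rw [hFg]; ring⟩
  have hgu : g ∣ u := hgv.dvd_of_dvd_mul_right ⟨m, by rw [hg]; ring⟩
  have hgB : g ∣ B := by
    have h1 : g ∣ B * v ^ 2 := by
      have h2 : B * v ^ 2 = F - u * (u + A * v) := by rw [hF]; ring
      rw [h2]
      exact dvd_sub ⟨n, by rw [hFg]; ring⟩ (hgu.mul_right _)
    exact (hgv.pow_right (n := 2)).dvd_of_dvd_mul_right h1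
  have hgle : |g| ≤ |B| := by
    have := Int.natAbs_le_of_dvd_ne_zero hgB hB
    rw [Int.abs_eq_natAbs, Int.abs_eq_natAbs]
    exact_mod_cast this
  -- the bounds
  have hH : ((ht x : ℕ) : ℤ) = max |u| |v| := by
    unfold ht
    rw [hv, Int.abs_eq_natAbs, Nat.abs_cast]
    push_cast
    rfl
  have hH' : ((ht x' : ℕ) : ℤ) = max |n| |m| := by
    unfold ht
    rw [hm, Int.abs_eq_natAbs, Nat.abs_cast]
    push_cast
    rfl
  set h' : ℤ := ((ht x' : ℕ) : ℤ) with hh'
  have hn' : |n| ≤ h' := by rw [hH']; exact le_max_left _ _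
  have hm' : |m| ≤ h' := by rw [hH']; exact le_max_right _ _
  have h'0 : 0 ≤ h' := by rw [hh']; positivity
  have b1 : |u * v| ≤ h' * |B| := by
    rw [hg, abs_mul]
    exact mul_le_mul hm' hgle (abs_nonneg _) h'0
  have b2 : |F| ≤ h' * |B| := by
    rw [hFg, abs_mul]
    exact mul_le_mul hn' hgle (abs_nonneg _) h'0
  rw [abs_mul] at b1
  have hA0 := abs_nonneg A
  have hB1 : 1 ≤ |B| := Int.one_le_abs hB
  have hu' := abs_nonneg u
  have hv' := abs_nonneg v
  set m0 : ℤ := h' * |B| with hm0'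
  have hm00 : 0 ≤ m0 := mul_nonneg h'0 (by omega)
  have main : max |u| |v| ^ 2 ≤ (1 + |A| + |B|) * m0 := by
    have hAuv : |A * u * v| = |A| * (|u| * |v|) := by
      rw [abs_mul, abs_mul, mul_assoc]
    have hBvv : |B * v ^ 2| = |B| * (|v| * |v|) := by
      rw [abs_mul, abs_pow, sq]
    have e1 : |A| * (|u| * |v|) ≤ |A| * m0 := mul_le_mul_of_nonneg_left b1 hA0
    rcases le_total |v| |u| with hle | hle
    · rw [max_eq_left hle]
      have h1 : |u| ^ 2 ≤ |F| + |A * u * v| + |B * v ^ 2| := by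
        have h2 : u ^ 2 = F - A * u * v - B * v ^ 2 := by rw [hF]; ring
        rw [← abs_pow, h2]
        refine (abs_sub _ _).trans ?_
        gcongr
        exact abs_sub _ _
      have h3 : |B| * (|v| * |v|) ≤ |B| * m0 := by
        refine mul_le_mul_of_nonneg_left ?_ (by omega)
        exact (mul_le_mul_of_nonneg_right hle hv').trans b1
      rw [hAuv, hBvv] at h1
      linarith
    · rw [max_eq_right hle]
      have h1 : |B| * (|v| * |v|) ≤ |F| + |u| ^ 2 + |A * u * v| := by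
        have h2 : B * v ^ 2 = F - u ^ 2 - A * u * v := by rw [hF]; ring
        rw [← hBvv, h2]
        refine (abs_sub _ _).trans ?_
        gcongr
        refine (abs_sub _ _).trans ?_
        rw [abs_pow]
      have h3 : |u| ^ 2 ≤ m0 := by
        rw [sq]
        exact (mul_le_mul_of_nonneg_left hle hu').trans b1
      have h4 : |v| ^ 2 ≤ |B| * (|v| * |v|) := by
        rw [sq]
        nlinarith [mul_nonneg hv' hv']
      rw [hAuv] at h1
      nlinarith
  have fin : ((ht x ^ 2 : ℕ) : ℤ) ≤ ((cst A B * ht x' : ℕ) : ℤ) := by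
    have e2 : ((cst A B * ht x' : ℕ) : ℤ) = (1 + |A| + |B|) * m0 := by
      unfold cst
      rw [hm0', hh', Int.abs_eq_natAbs, Int.abs_eq_natAbs]
      push_cast
      ring
    rw [e2]
    push_cast
    rw [hH]
    exact main
  exact_mod_cast fin

/-- the constant of the doubling map -/
def dbl (A B : ℤ) : ℕ := 4 * cst A B ^ 2 * cst (-2 * A) (A ^ 2 - 4 * B)

theorem cst_pos {A B : ℤ} (hB : B ≠ 0) : 0 < cst A B :=
  Nat.mul_pos (by omega) (Int.natAbs_pos.2 hB)

/-- the abscissa of the image -/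
theorem absc {A B : ℤ} {x y : ℚ} (h : (x, y) ∈ Sol A B) (hx : x ≠ 0) :
    y ^ 2 / x ^ 2 = (x ^ 2 + A * x + B) / x := by
  have h : y ^ 2 = x ^ 3 + A * x ^ 2 + B * x := h
  rw [h]
  field_simp

theorem step {A B : ℤ} (hB : B ≠ 0) (hC : A ^ 2 - 4 * B ≠ 0) {p : ℚ × ℚ} (hp : p ∈ Sol A B)
    (hh : dbl A B < ht p.1) : ∃ q ∈ Sol A B, ht p.1 < ht q.1 := by
  obtain ⟨x, y⟩ := p
  simp only at hh
  have c1 := cst_pos (A := A) hB
  have c2 := cst_pos (A := -2 * A) hC
  have hC1 : cst A B ≤ dbl A B := by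
    unfold dbl
    nlinarith [Nat.mul_pos c1 c2, Nat.mul_pos c1 c1]
  have hx : x ≠ 0 := by
    rintro rfl
    rw [ht_zero] at hh
    omega
  have h1 := isog hp hx
  have h2 := isog_ht (A := A) hB hx
  rw [← absc hp hx] at h2
  set x' := y ^ 2 / x ^ 2 with hx'
  set y' := y * (x ^ 2 - B) / x ^ 2 with hy'
  have hx'0 : x' ≠ 0 := by
    intro h0
    rw [h0, ht_zero, mul_one] at h2
    nlinarith [ht_pos x]
  have h3 := isog h1 hx'0
  have h4 := isog_ht (A := -2 * A) hC hx'0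
  rw [← absc h1 hx'0] at h4
  set x'' := y' ^ 2 / x' ^ 2 with hx''
  set y'' := y' * (x' ^ 2 - ((A ^ 2 - 4 * B : ℤ) : ℚ)) / x' ^ 2 with hy''
  refine ⟨(x'' / 4, y'' / 8), ?_, ?_⟩
  · have h5 : y'' ^ 2 = x'' ^ 3 + ((-2 * (-2 * A) : ℤ) : ℚ) * x'' ^ 2 +
      (((-2 * A) ^ 2 - 4 * (A ^ 2 - 4 * B) : ℤ) : ℚ) * x'' := h3
    show (y'' / 8) ^ 2 = (x'' / 4) ^ 3 + A * (x'' / 4) ^ 2 + B * (x'' / 4)
    push_cast at h5
    linear_combination (1 / 64) * h5
  · show ht x < ht (x'' / 4)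
    have h6 : ht x'' ≤ 4 * ht (x'' / 4) := by
      have := ht_four (x'' / 4)
      rwa [mul_div_cancel₀ x'' (by norm_num : (4 : ℚ) ≠ 0)] at this
    set a := ht x
    set b := ht x'
    set c := ht x''
    set k := ht (x'' / 4)
    have h7 : a ^ 4 ≤ dbl A B * k := by
      calc a ^ 4 = (a ^ 2) ^ 2 := by ring
        _ ≤ (cst A B * b) ^ 2 := Nat.pow_le_pow_left h2 2
        _ = cst A B ^ 2 * b ^ 2 := by ring
        _ ≤ cst A B ^ 2 * (cst (-2 * A) (A ^ 2 - 4 * B) * c) := Nat.mul_le_mul_left _ h4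
        _ ≤ cst A B ^ 2 * (cst (-2 * A) (A ^ 2 - 4 * B) * (4 * k)) :=
            Nat.mul_le_mul_left _ (Nat.mul_le_mul_left _ h6)
        _ = dbl A B * k := by unfold dbl; ring
    by_contra hcon
    have h8 : k ≤ a := not_lt.1 hcon
    have ha : 0 < a := ht_pos x
    have h9 : dbl A B * k < a * a := by
      calc dbl A B * k ≤ dbl A B * a := Nat.mul_le_mul_left _ h8
        _ < a * a := Nat.mul_lt_mul_of_pos_right hh ha
    have h10 : a * a ≤ a ^ 4 := by
      have : a ^ 4 = a * a * (a * a) := by ring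
      rw [this]
      exact Nat.le_mul_of_pos_right _ (Nat.mul_pos ha ha)
    omega

/-- one rational point of large height gives infinitely many -/
theorem inf_of {A B : ℤ} (hB : B ≠ 0) (hC : A ^ 2 - 4 * B ≠ 0) {p : ℚ × ℚ} (hp : p ∈ Sol A B)
    (hh : dbl A B < ht p.1) : (Sol A B).Infinite := by
  intro hfin
  set T := {q | q ∈ Sol A B ∧ dbl A B < ht q.1} with hT
  have hTf : T.Finite := hfin.subset fun q hq => hq.1
  obtain ⟨q, hq, hmax⟩ := Set.exists_max_image T (fun q => ht q.1) hTf ⟨p, hp, hh⟩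
  obtain ⟨r, hr, hlt⟩ := step hB hC hq.1 hq.2
  exact absurd (hmax r ⟨hr, hq.2.trans hlt⟩) (not_le.2 hlt)

theorem finite_ht (n : ℕ) : {x : ℚ | ht x ≤ n}.Finite := by
  have h1 : {x : ℚ | ht x ≤ n} ⊆ (fun q : ℤ × ℤ => (q.1 : ℚ) / q.2) '' ((Set.Icc (-(n : ℤ)) n) ×ˢ
      (Set.Icc (-(n : ℤ)) n)) := by
    intro x hx
    have hx : ht x ≤ n := hx
    unfold ht at hx
    have h2 : x.num.natAbs ≤ n := (le_max_left _ _).trans hx
    have h3 : x.den ≤ n := (le_max_right _ _).trans hx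
    refine ⟨(x.num, (x.den : ℤ)), ⟨⟨?_, ?_⟩, ?_, ?_⟩, ?_⟩
    · show -(n : ℤ) ≤ x.num
      omega
    · show x.num ≤ n
      omega
    · show -(n : ℤ) ≤ (x.den : ℤ)
      omega
    · show (x.den : ℤ) ≤ n
      omega
    · show (x.num : ℚ) / ((x.den : ℤ) : ℚ) = x
      exact_mod_cast Rat.num_div_den x
  exact (((Set.finite_Icc _ _).prod (Set.finite_Icc _ _)).image _).subset h1

/-- infinitely many points have points of large height among them -/
theorem exists_of_inf {A B : ℤ} (h : (Sol A B).Infinite) (n : ℕ) : ∃ p ∈ Sol A B, n < ht p.1 := by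
  by_contra hcon
  push Not at hcon
  apply h
  have h1 : Sol A B ⊆ ⋃ x ∈ {x : ℚ | ht x ≤ n}, (fun y => (x, y)) ''
      {y : ℚ | y ^ 2 = x ^ 3 + A * x ^ 2 + B * x} := by
    rintro ⟨x, y⟩ hp
    simp only [Set.mem_iUnion]
    exact ⟨x, hcon _ hp, y, hp, rfl⟩
  refine ((finite_ht n).biUnion fun x _ => Set.Finite.image _ ?_).subset h1
  set c := x ^ 3 + A * x ^ 2 + B * x
  by_cases hs : ∃ s : ℚ, s ^ 2 = c
  · obtain ⟨s, hs⟩ := hs
    refine (Set.toFinite {s, -s}).subset fun y hy => ?_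
    have hy : y ^ 2 = c := hy
    have h2 : (y - s) * (y + s) = 0 := by linear_combination hy - hs
    rcases mul_eq_zero.1 h2 with h3 | h3
    · left
      linarith
    · right
      rw [Set.mem_singleton_iff]
      linarith
  · refine (Set.finite_empty).subset fun y hy => ?_
    exact hs ⟨y, hy⟩

end Pool.Agent.U845.TI
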