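import Pool.Agent.U845.TI.Loc
import Pool.Agent.U845.TI.Ht

/-!
# The certificates
-/

set_option autoImplicit false

namespace Pool.Agent.U845.TI

/-- an integer with the given sign and absolute value -/
def sg (i n : ℕ) : ℤ := (1 - 2 * (i : ℤ)) * n

/-- squarefree, in bounded form -/
def SF (n : ℕ) : Prop := ¬ n = 0 ∧ ∀ k < n + 1, (1 < k → ¬ k * k ∣ n)

/-- all the classes outside a list have certificates of local insolubility -/
def Cov (A B : ℤ) (T : List ℤ) : Prop :=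
  ∀ n < B.natAbs + 1, ∀ m < B.natAbs + 1, ∀ i < 2, ∀ j < 2,
    (sg i n * sg j m = B ∧ SF n ∧ ¬ sg i n ∈ T) → NL A (sg i n) (sg j m)

/-- the certificate of finiteness -/
def Cert (A B : ℤ) : Prop := ∃ T T' : List ℤ, T.length * T'.length ≤ 4 ∧ Cov A B T ∧
  Cov (-2 * A) (A * A - 4 * B) T'

/-- the polynomial `y² - x³ - A x² - B x` -/
def curve (A B : ℤ) : List (List ℤ) := [[0, 0, 1], [-B], [-A], [-1]]

theorem curve_inj {A B A' B' : ℤ} (h : curve A B = curve A' B') : A = A' ∧ B = B' := by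
  unfold curve at h
  injection h with _ h1
  injection h1 with h2 h3
  injection h3 with h4 _
  injection h2 with h5 _
  injection h4 with h6 _
  exact ⟨neg_injective h6, neg_injective h5⟩

/-- there is a proof that the curve has infinitely many rational points -/
def PInf (L : List (List ℤ)) : Prop :=
  ∃ w : (ℤ × ℤ) × (ℤ × ℤ × ℤ × ℤ) × (ℤ × ℤ),
    L = curve w.1.1 w.1.2 ∧ ¬ w.1.2 = 0 ∧ ¬ w.1.1 * w.1.1 - 4 * w.1.2 = 0 ∧
    0 < w.2.1.2.1 ∧ ¬ w.2.1.2.2.2 = 0 ∧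
    w.2.2.1 * w.2.1.1 + w.2.2.2 * w.2.1.2.1 = 1 ∧
    w.2.1.2.2.1 * w.2.1.2.2.1 * (w.2.1.2.1 * w.2.1.2.1 * w.2.1.2.1) =
      w.2.1.2.2.2 * w.2.1.2.2.2 * (w.2.1.1 * w.2.1.1 * w.2.1.1 +
        w.1.1 * (w.2.1.1 * w.2.1.1) * w.2.1.2.1 + w.1.2 * w.2.1.1 * (w.2.1.2.1 * w.2.1.2.1)) ∧
    dbl w.1.1 w.1.2 < max w.2.1.1.natAbs w.2.1.2.1.natAbs

/-- there is a proof that the curve has finitely many rational points -/
def PFin (L : List (List ℤ)) : Prop :=
  ∃ w : ℤ × ℤ, L = curve w.1 w.2 ∧ ¬ w.2 = 0 ∧ ¬ w.1 * w.1 - 4 * w.2 = 0 ∧ Cert w.1 w.2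

theorem pInf_iff {A B : ℤ} : PInf (curve A B) ↔ B ≠ 0 ∧ A ^ 2 - 4 * B ≠ 0 ∧ (Sol A B).Infinite := by
  have e : A * A - 4 * B = A ^ 2 - 4 * B := by ring
  constructor
  · rintro ⟨⟨⟨A', B'⟩, ⟨u, v, w, z⟩, ⟨r, s⟩⟩, h0, h1, h2, h3, h4, h5, h6, h7⟩
    simp only at h0 h1 h2 h3 h4 h5 h6 h7
    obtain ⟨rfl, rfl⟩ := curve_inj h0
    rw [e] at h2
    refine ⟨h1, h2, ?_⟩
    have hv : (v : ℚ) ≠ 0 := by exact_mod_cast h3.ne'
    have hz : (z : ℚ) ≠ 0 := by exact_mod_cast h4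
    have hp : ((u : ℚ) / v, (w : ℚ) / z) ∈ Sol A B := by
      show ((w : ℚ) / z) ^ 2 = ((u : ℚ) / v) ^ 3 + A * ((u : ℚ) / v) ^ 2 + B * ((u : ℚ) / v)
      have h8 : (w : ℚ) * w * (v * v * v) = z * z * (u * u * u + A * (u * u) * v + B * u * (v * v)) := by
        exact_mod_cast h6
      field_simp
      linear_combination h8
    refine inf_of h1 h2 hp ?_
    have hcop : Nat.Coprime u.natAbs v.natAbs := Int.isCoprime_iff_nat_coprime.1 ⟨r, s, h5⟩
    have e1 : ((u : ℚ) / v).num = u := Rat.num_div_eq_of_coprime h3 hcop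
    have e2 : (((u : ℚ) / v).den : ℤ) = v := Rat.den_div_eq_of_coprime h3 hcop
    show dbl A B < ht ((u : ℚ) / v)
    unfold ht
    rw [e1]
    have e3 : ((u : ℚ) / v).den = v.natAbs := by omega
    rw [e3]
    exact h7
  · rintro ⟨h1, h2, h3⟩
    obtain ⟨⟨x, y⟩, hp, hh⟩ := exists_of_inf h3 (dbl A B)
    have hp : y ^ 2 = x ^ 3 + A * x ^ 2 + B * x := hp
    have hh : dbl A B < ht x := hh
    have hcop : IsCoprime x.num (x.den : ℤ) := by
      rw [Int.isCoprime_iff_nat_coprime, Int.natAbs_natCast]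
      exact x.reduced
    obtain ⟨r, s, hrs⟩ := hcop
    refine ⟨⟨⟨A, B⟩, ⟨x.num, x.den, y.num, y.den⟩, ⟨r, s⟩⟩, rfl, h1, by rw [e]; exact h2, ?_, ?_,
      hrs, ?_, ?_⟩
    · show (0 : ℤ) < (x.den : ℤ)
      exact_mod_cast x.den_pos
    · show ¬ (y.den : ℤ) = 0
      exact_mod_cast y.den_nz
    · show y.num * y.num * ((x.den : ℤ) * x.den * x.den) = (y.den : ℤ) * y.den *
        (x.num * x.num * x.num + A * (x.num * x.num) * x.den + B * x.num * ((x.den : ℤ) * x.den))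
      have hx := Rat.num_div_den x
      have hy := Rat.num_div_den y
      have hxd : (x.den : ℚ) ≠ 0 := by exact_mod_cast x.den_nz
      have hyd : (y.den : ℚ) ≠ 0 := by exact_mod_cast y.den_nz
      rw [← hx, ← hy] at hp
      have h8 : (y.num : ℚ) * y.num * ((x.den : ℚ) * x.den * x.den) = (y.den : ℚ) * y.den *
          (x.num * x.num * x.num + A * (x.num * x.num) * x.den + B * x.num * ((x.den : ℚ) * x.den)) := by
        generalize (x.num : ℚ) = a at hp ⊢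
        generalize (y.num : ℚ) = b at hp ⊢
        generalize (x.den : ℚ) = c at hp hxd ⊢
        generalize (y.den : ℚ) = d at hp hyd ⊢
        field_simp at hp
        linear_combination hp
      exact_mod_cast h8
    · show dbl A B < max x.num.natAbs (x.den : ℤ).natAbs
      rw [Int.natAbs_natCast]
      exact hh

theorem pFin_iff {A B : ℤ} : PFin (curve A B) ↔ B ≠ 0 ∧ A ^ 2 - 4 * B ≠ 0 ∧ Cert A B := by
  have e : A * A - 4 * B = A ^ 2 - 4 * B := by ring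
  constructor
  · rintro ⟨⟨A', B'⟩, h0, h1, h2, h3⟩
    simp only at h0 h1 h2 h3
    obtain ⟨rfl, rfl⟩ := curve_inj h0
    rw [e] at h2
    exact ⟨h1, h2, h3⟩
  · rintro ⟨h1, h2, h3⟩
    exact ⟨⟨A, B⟩, rfl, h1, by rw [e]; exact h2, h3⟩

end Pool.Agent.U845.TI
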