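import Mathlib
import Pool.Agent.U115.GE.Defs

/-!
# Certificates of local insolubility for the coverings `N² = d M⁴ + A M² e² + b e⁴`
-/

set_option autoImplicit false

namespace Pool.Agent.U845.TI

open Pool.Agent.U115.GE (Qs ELS)

/-- the right hand side -/
def qf (A d b M e : ℤ) : ℤ := d * (M * M * M * M) + A * (M * M) * (e * e) + b * (e * e * e * e)

/-- there is no primitive solution modulo `p ^ (k + 1)` -/
def NoMod (A d b : ℤ) (p k : ℕ) : Prop :=
  ∀ N < p ^ (k + 1), ∀ M < p ^ (k + 1), ∀ e < p ^ (k + 1), ¬ (p ∣ M ∧ p ∣ e) →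
    ¬ p ^ (k + 1) ∣ ((N : ℤ) * N - qf A d b M e).natAbs

/-- there is no real point -/
def NoReal (A d b : ℤ) : Prop := d < 0 ∧ b < 0 ∧ (A < 1 ∨ A * A < 4 * (d * b))

/-- a certificate of local insolubility exists -/
def NL (A d b : ℤ) : Prop := NoReal A d b ∨ ∃ p k : ℕ, p.Prime ∧ NoMod A d b p k

theorem qs_iff {K : Type} [Field K] [CharZero K] {A d b : ℤ} (hd : d ≠ 0) :
    Qs K A (d * b) d ↔ ∃ N M e : K, (M ≠ 0 ∨ e ≠ 0) ∧
      N ^ 2 = (d : K) * M ^ 4 + (A : K) * M ^ 2 * e ^ 2 + (b : K) * e ^ 4 := by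
  have hd' : (d : K) ≠ 0 := by exact_mod_cast hd
  have e1 : ((d * b : ℤ) : K) / (d : K) = (b : K) := by
    push_cast
    field_simp
  unfold Qs
  rw [e1]

theorem real_iff {A d b : ℤ} (hd : d ≠ 0) (hb : b ≠ 0) :
    Qs ℝ A (d * b) d ↔ ¬ NoReal A d b := by
  rw [qs_iff hd]
  constructor
  · rintro ⟨N, M, e, hne, h⟩ ⟨h1, h2, h3⟩
    have h1' : (d : ℝ) < 0 := by exact_mod_cast h1
    have h2' : (b : ℝ) < 0 := by exact_mod_cast h2
    have hM : 0 ≤ M ^ 2 := sq_nonneg M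
    have he : 0 ≤ e ^ 2 := sq_nonneg e
    have hpos : 0 < M ^ 2 + e ^ 2 := by
      rcases hne with h | h
      · have := pow_pos (abs_pos.2 h) 2
        rw [sq_abs] at this
        linarith
      · have := pow_pos (abs_pos.2 h) 2
        rw [sq_abs] at this
        linarith
    have hneg : (d : ℝ) * M ^ 4 + (A : ℝ) * M ^ 2 * e ^ 2 + (b : ℝ) * e ^ 4 < 0 := by
      rcases h3 with h3 | h3
      · have h3' : (A : ℝ) ≤ 0 := by exact_mod_cast (by omega : A ≤ 0)
        have t1 : (A : ℝ) * M ^ 2 * e ^ 2 ≤ 0 := by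
          rw [mul_assoc]
          exact mul_nonpos_of_nonpos_of_nonneg h3' (mul_nonneg hM he)
        rcases hne with h | h
        · have : 0 < M ^ 4 := by positivity
          nlinarith [mul_neg_of_neg_of_pos h1' this, sq_nonneg (e ^ 2)]
        · have : 0 < e ^ 4 := by positivity
          nlinarith [mul_neg_of_neg_of_pos h2' this, sq_nonneg (M ^ 2)]
      · have h3' : (A : ℝ) * A < 4 * (d * b) := by exact_mod_cast h3
        by_contra hcon
        have hcon := not_lt.1 hcon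
        have t1 : 4 * (d : ℝ) * ((d : ℝ) * M ^ 4 + (A : ℝ) * M ^ 2 * e ^ 2 + (b : ℝ) * e ^ 4) ≤ 0 := by
          nlinarith
        have t2 : 4 * (d : ℝ) * ((d : ℝ) * M ^ 4 + (A : ℝ) * M ^ 2 * e ^ 2 + (b : ℝ) * e ^ 4) =
            (2 * d * M ^ 2 + A * e ^ 2) ^ 2 + (4 * (d * b) - A * A) * (e ^ 2) ^ 2 := by ring
        rw [t2] at t1
        by_cases he0 : e = 0
        · have hM0 : M ≠ 0 := by
            rcases hne with h | h
            · exact h
            · exact absurd he0 h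
          rw [he0] at t1
          have t3 : 0 < (2 * (d : ℝ) * M ^ 2) ^ 2 := by
            have : 2 * (d : ℝ) * M ^ 2 ≠ 0 := by
              have : (d : ℝ) ≠ 0 := h1'.ne
              positivity
            positivity
          nlinarith
        · have t3 : 0 < (e ^ 2) ^ 2 := by positivity
          nlinarith [sq_nonneg (2 * (d : ℝ) * M ^ 2 + A * e ^ 2), mul_pos (sub_pos.2 h3') t3]
    nlinarith [sq_nonneg N]
  · intro h
    unfold NoReal at h
    push Not at h
    rcases lt_or_gt_of_ne hd with hd1 | hd1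
    · rcases lt_or_gt_of_ne hb with hb1 | hb1
      · obtain ⟨h1, h2⟩ := h hd1 hb1
        have hd' : (d : ℝ) < 0 := by exact_mod_cast hd1
        have hA : (0 : ℝ) < A := by exact_mod_cast (by omega : 0 < A)
        have h2' : 4 * ((d : ℝ) * b) ≤ A * A := by exact_mod_cast h2
        have ht : 0 ≤ -(A : ℝ) / (2 * d) := by
          apply div_nonneg_of_nonpos <;> linarith
        have hv : 0 ≤ (b : ℝ) - A ^ 2 / (4 * d) := by
          have e1 : (b : ℝ) - A ^ 2 / (4 * d) = (4 * (d * b) - A * A) / (4 * d) := by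
            field_simp
          rw [e1]
          apply div_nonneg_of_nonpos <;> linarith
        refine ⟨Real.sqrt ((b : ℝ) - A ^ 2 / (4 * d)), Real.sqrt (-(A : ℝ) / (2 * d)), 1,
          Or.inr one_ne_zero, ?_⟩
        rw [Real.sq_sqrt hv]
        have e2 : Real.sqrt (-(A : ℝ) / (2 * d)) ^ 4 = (-(A : ℝ) / (2 * d)) ^ 2 := by
          have : Real.sqrt (-(A : ℝ) / (2 * d)) ^ 4 = (Real.sqrt (-(A : ℝ) / (2 * d)) ^ 2) ^ 2 := by
            ring
          rw [this, Real.sq_sqrt ht]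
        rw [e2, Real.sq_sqrt ht]
        have hd0 : (d : ℝ) ≠ 0 := hd'.ne
        field_simp
        ring
      · have hb' : (0 : ℝ) ≤ b := by exact_mod_cast hb1.le
        refine ⟨Real.sqrt b, 0, 1, Or.inr one_ne_zero, ?_⟩
        rw [Real.sq_sqrt hb']
        ring
    · have hd' : (0 : ℝ) ≤ d := by exact_mod_cast hd1.le
      refine ⟨Real.sqrt d, 1, 0, Or.inl one_ne_zero, ?_⟩
      rw [Real.sq_sqrt hd']
      ring

section padic

variable {p : ℕ} [hp : Fact p.Prime] {A d b : ℤ}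

/-- the equation over a commutative ring -/
def Eqn (R : Type) [CommRing R] (A d b : ℤ) (N M e : R) : Prop :=
  N ^ 2 = (d : R) * M ^ 4 + (A : R) * M ^ 2 * e ^ 2 + (b : R) * e ^ 4

/-- integral primitive solutions -/
theorem padic_int {N M e : ℚ_[p]} (hne : M ≠ 0 ∨ e ≠ 0) (h : Eqn ℚ_[p] A d b N M e) :
    ∃ N' M' e' : ℤ_[p], (M' = 1 ∨ e' = 1) ∧ Eqn ℤ_[p] A d b N' M' e' := by
  unfold Eqn at h
  have small : ∀ (z : ℤ_[p]) (w : ℚ_[p]), w ^ 2 = (z : ℚ_[p]) → ‖w‖ ≤ 1 := by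
    intro z w hw
    have h1 : ‖w‖ ^ 2 ≤ 1 := by
      rw [← norm_pow, hw]
      exact z.2
    have h2 := norm_nonneg w
    nlinarith
  rcases le_total ‖e‖ ‖M‖ with hle | hle
  · have hM : M ≠ 0 := by
      rintro rfl
      rw [norm_zero] at hle
      have : e = 0 := norm_le_zero_iff.1 hle
      rcases hne with h | h
      · exact h rfl
      · exact h this
    have he : ‖e / M‖ ≤ 1 := by
      rw [norm_div]
      exact div_le_one_of_le₀ hle (norm_nonneg _)
    set e1 : ℤ_[p] := ⟨e / M, he⟩ with he1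
    have hc : ((e1 : ℤ_[p]) : ℚ_[p]) = e / M := rfl
    have hN : (N / M ^ 2) ^ 2 = (((d : ℤ_[p]) * 1 ^ 4 + (A : ℤ_[p]) * 1 ^ 2 * e1 ^ 2 +
        (b : ℤ_[p]) * e1 ^ 4 : ℤ_[p]) : ℚ_[p]) := by
      push_cast
      rw [hc]
      field_simp
      linear_combination h
    refine ⟨⟨N / M ^ 2, small _ _ hN⟩, 1, e1, Or.inl rfl, ?_⟩
    unfold Eqn
    apply Subtype.ext
    exact hN
  · have he0 : e ≠ 0 := by
      rintro rfl
      rw [norm_zero] at hle
      have : M = 0 := norm_le_zero_iff.1 hle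
      rcases hne with h | h
      · exact h this
      · exact h rfl
    have hM : ‖M / e‖ ≤ 1 := by
      rw [norm_div]
      exact div_le_one_of_le₀ hle (norm_nonneg _)
    set M1 : ℤ_[p] := ⟨M / e, hM⟩ with hM1
    have hc : ((M1 : ℤ_[p]) : ℚ_[p]) = M / e := rfl
    have hN : (N / e ^ 2) ^ 2 = (((d : ℤ_[p]) * M1 ^ 4 + (A : ℤ_[p]) * M1 ^ 2 * 1 ^ 2 +
        (b : ℤ_[p]) * 1 ^ 4 : ℤ_[p]) : ℚ_[p]) := by
      push_cast
      rw [hc]
      field_simp
      linear_combination h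
    refine ⟨⟨N / e ^ 2, small _ _ hN⟩, M1, 1, Or.inr rfl, ?_⟩
    unfold Eqn
    apply Subtype.ext
    exact hN

theorem one_val (k : ℕ) : (1 : ZMod (p ^ (k + 1))).val = 1 := by
  have h1 : 1 < p ^ (k + 1) := Nat.one_lt_pow (by omega) hp.out.one_lt
  have : Fact (1 < p ^ (k + 1)) := ⟨h1⟩
  exact ZMod.val_one _

/-- a solution over `ℚ_p` gives solutions modulo all powers of `p` -/
theorem padic_mod (k : ℕ) {N M e : ℚ_[p]} (hne : M ≠ 0 ∨ e ≠ 0) (h : Eqn ℚ_[p] A d b N M e) :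
    ¬ NoMod A d b p k := by
  obtain ⟨N', M', e', h1, h2⟩ := padic_int hne h
  intro hno
  have hpk : p ^ (k + 1) ≠ 0 := pow_ne_zero _ hp.out.ne_zero
  have : NeZero (p ^ (k + 1)) := ⟨hpk⟩
  set f := PadicInt.toZModPow (p := p) (k + 1) with hf
  have h3 : Eqn (ZMod (p ^ (k + 1))) A d b (f N') (f M') (f e') := by
    unfold Eqn at h2 ⊢
    have := congrArg f h2
    simpa using this
  refine hno (f N').val (ZMod.val_lt _) (f M').val (ZMod.val_lt _) (f e').val (ZMod.val_lt _) ?_ ?_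
  · rintro ⟨h4, h5⟩
    rcases h1 with h1 | h1
    · rw [h1, map_one, one_val] at h4
      exact hp.out.one_lt.ne' (Nat.dvd_one.1 h4)
    · rw [h1, map_one, one_val] at h5
      exact hp.out.one_lt.ne' (Nat.dvd_one.1 h5)
  · rw [← Int.natCast_dvd, ← ZMod.intCast_zmod_eq_zero_iff_dvd]
    unfold qf
    push_cast
    simp only [ZMod.natCast_zmod_val]
    unfold Eqn at h3
    linear_combination h3

/-- solutions modulo all powers of `p` give a solution over `ℚ_p` -/
theorem padic_of (h : ∀ k, ¬ NoMod A d b p k) :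
    ∃ N M e : ℚ_[p], (M ≠ 0 ∨ e ≠ 0) ∧ Eqn ℚ_[p] A d b N M e := by
  set G : ℤ_[p] × ℤ_[p] × ℤ_[p] → ℤ_[p] := fun x =>
    x.1 ^ 2 - ((d : ℤ_[p]) * x.2.1 ^ 4 + (A : ℤ_[p]) * x.2.1 ^ 2 * x.2.2 ^ 2 +
      (b : ℤ_[p]) * x.2.2 ^ 4) with hG
  have hGc : Continuous G := by
    rw [hG]
    fun_prop
  set t : ℕ → Set (ℤ_[p] × ℤ_[p] × ℤ_[p]) := fun k =>
    {x | (‖x.2.1‖ = 1 ∨ ‖x.2.2‖ = 1) ∧ ‖G x‖ ≤ (p : ℝ) ^ (-((k + 1 : ℕ) : ℤ))} with ht
  have hp1 : (1 : ℝ) < p := by exact_mod_cast hp.out.one_lt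
  have hcl : ∀ k, IsClosed (t k) := by
    intro k
    have c1 : IsClosed {x : ℤ_[p] × ℤ_[p] × ℤ_[p] | ‖x.2.1‖ = 1} :=
      isClosed_eq (continuous_norm.comp (continuous_fst.comp continuous_snd)) continuous_const
    have c2 : IsClosed {x : ℤ_[p] × ℤ_[p] × ℤ_[p] | ‖x.2.2‖ = 1} :=
      isClosed_eq (continuous_norm.comp (continuous_snd.comp continuous_snd)) continuous_const
    have c3 : IsClosed {x : ℤ_[p] × ℤ_[p] × ℤ_[p] | ‖G x‖ ≤ (p : ℝ) ^ (-((k + 1 : ℕ) : ℤ))} :=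
      isClosed_le (continuous_norm.comp hGc) continuous_const
    exact (c1.union c2).inter c3
  have hne : (⋂ k, t k).Nonempty := by
    refine IsCompact.nonempty_iInter_of_sequence_nonempty_isCompact_isClosed t ?_ ?_
      (hcl 0).isCompact hcl
    · rintro k x ⟨h1, h2⟩
      refine ⟨h1, h2.trans ?_⟩
      apply zpow_le_zpow_right₀ hp1.le
      push_cast
      omega
    · intro k
      have h1 := h k
      unfold NoMod at h1
      push Not at h1
      obtain ⟨N, -, M, -, e, -, h2, h3⟩ := h1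
      refine ⟨((N : ℤ_[p]), (M : ℤ_[p]), (e : ℤ_[p])), ?_, ?_⟩
      · have key : ∀ n : ℕ, ¬ p ∣ n → ‖((n : ℕ) : ℤ_[p])‖ = 1 := by
          intro n hn
          refine le_antisymm (PadicInt.norm_le_one _) ?_
          by_contra hcon
          have h4 : ‖(((n : ℕ) : ℤ) : ℤ_[p])‖ < 1 := by
            have := not_le.1 hcon
            simpa using this
          rw [PadicInt.norm_int_lt_one_iff_dvd] at h4
          exact hn (by exact_mod_cast h4)
        by_cases hM : p ∣ M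
        · right
          exact key e (h2 hM)
        · left
          exact key M hM
      · have h4 : ‖(((N : ℤ) * N - qf A d b M e : ℤ) : ℤ_[p])‖ ≤ (p : ℝ) ^ (-((k + 1 : ℕ) : ℤ)) := by
          rw [PadicInt.norm_int_le_pow_iff_dvd]
          exact_mod_cast Int.natCast_dvd.2 h3
        refine le_trans (le_of_eq ?_) h4
        congr 1
        rw [hG]
        unfold qf
        push_cast
        ring
  obtain ⟨x, hx⟩ := hne
  rw [Set.mem_iInter] at hx
  have h0 : G x = 0 := by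
    rw [← norm_le_zero_iff]
    have hlim : Filter.Tendsto (fun k : ℕ => (p : ℝ) ^ (-((k + 1 : ℕ) : ℤ))) Filter.atTop (nhds 0) := by
      have h1 : Filter.Tendsto (fun k : ℕ => ((p : ℝ)⁻¹) ^ (k + 1)) Filter.atTop (nhds 0) := by
        have h2 := tendsto_pow_atTop_nhds_zero_of_lt_one (r := (p : ℝ)⁻¹) (by positivity)
          (inv_lt_one_of_one_lt₀ hp1)
        exact h2.comp (Filter.tendsto_add_atTop_nat 1)
      refine h1.congr fun k => ?_
      rw [zpow_neg, zpow_natCast, inv_pow]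
    exact ge_of_tendsto' hlim fun k => (hx k).2
  refine ⟨x.1, x.2.1, x.2.2, ?_, ?_⟩
  · rcases (hx 0).1 with h1 | h1
    · left
      intro h2
      have h3 : x.2.1 = 0 := Subtype.ext h2
      rw [h3, norm_zero] at h1
      exact zero_ne_one h1
    · right
      intro h2
      have h3 : x.2.2 = 0 := Subtype.ext h2
      rw [h3, norm_zero] at h1
      exact zero_ne_one h1
  · unfold Eqn
    have h1 : x.1 ^ 2 = (d : ℤ_[p]) * x.2.1 ^ 4 + (A : ℤ_[p]) * x.2.1 ^ 2 * x.2.2 ^ 2 +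
      (b : ℤ_[p]) * x.2.2 ^ 4 := sub_eq_zero.1 h0
    have h2 := congrArg (fun z : ℤ_[p] => (z : ℚ_[p])) h1
    simpa using h2

theorem padic_iff (hd : d ≠ 0) : Qs ℚ_[p] A (d * b) d ↔ ∀ k, ¬ NoMod A d b p k := by
  rw [qs_iff hd]
  constructor
  · rintro ⟨N, M, e, h1, h2⟩ k
    exact padic_mod k h1 h2
  · exact padic_of

end padic

/-- **Local insolubility has a certificate.** -/
theorem nl_iff {A d b : ℤ} (hd : d ≠ 0) (hb : b ≠ 0) : NL A d b ↔ ¬ ELS A (d * b) d := by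
  unfold NL ELS
  rw [real_iff hd hb]
  constructor
  · rintro (h | ⟨p, k, hp, h⟩) ⟨h1, h2⟩
    · exact h1 h
    · have : Fact p.Prime := ⟨hp⟩
      exact (padic_iff hd).1 (h2 p) k h
  · intro h
    by_contra hcon
    push Not at hcon
    obtain ⟨h1, h2⟩ := hcon
    exact h ⟨h1, fun p hp => (padic_iff hd).2 fun k => h2 p k hp.out⟩

end Pool.Agent.U845.TI
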